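import Mathlib

set_option autoImplicit false

/-!
# Codes of uniform words (upper bound for p-intersection numbers of complete multipartite graphs)

Interface: definitions and the statements of the pieces. Only Mathlib.
-/

namespace Pool.Agent.Run7.h198.CA

open Finset

/-- `w` is a word on the index type `ι` in which every letter of `Fin n` occurs exactly `t` times -/
def Unif {n : ℕ} {ι : Type} [Fintype ι] [DecidableEq ι] (t : ℕ) (w : ι → Fin n) : Prop :=
  ∀ a : Fin n, (univ.filter fun i => w i = a).card = t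

/-- for every pair `(a, b)` in `E` there are at least `p` places with `x i = a` and `y i = b` -/
def Sep {n : ℕ} {ι : Type} [Fintype ι] [DecidableEq ι] (p : ℕ) (E : Finset (Fin n × Fin n))
    (x y : ι → Fin n) : Prop :=
  ∀ e ∈ E, p ≤ (univ.filter fun i => x i = e.1 ∧ y i = e.2).card

/-- there are `S` uniform words of length `n t` that are pairwise `p`-fold `E`-separated -/
def Code (n p : ℕ) (E : Finset (Fin n × Fin n)) (t S : ℕ) : Prop :=
  ∃ C : Finset (Fin (n * t) → Fin n), S ≤ C.card ∧ (∀ x ∈ C, Unif t x) ∧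
    ∀ x ∈ C, ∀ y ∈ C, x ≠ y → Sep p E x y

/-- PIECE MOVE. A code may be given on any index type (transport along an equivalence
`ι ≃ Fin (n * t)`, which exists because a uniform word shows that `ι` has `n t` elements; the
hypothesis `hι` gives it). -/
def S_MOVE : Prop :=
  ∀ (n p t S : ℕ) (E : Finset (Fin n × Fin n)) (ι : Type) [Fintype ι] [DecidableEq ι]
    (_ : Fintype.card ι = n * t) (C : Finset (ι → Fin n)), S ≤ C.card → (∀ x ∈ C, Unif t x) →
    (∀ x ∈ C, ∀ y ∈ C, x ≠ y → Sep p E x y) → Code n p E t S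

/-- PIECE COMB. Let `f g : T → ZMod K`. There is a set `D` of sequences of length `M` with at least
`|T|^M / K^(M+1)` elements, such that for two different `x, y` in `D` there is an index `i` with
`x i ≠ y i`, `f (x i) = f (y i)`, and an index `i` with `x i ≠ y i`, `g (x i) = g (y i)`.

PROOF. Let `Φ x : Fin (M+1) → ZMod K` be
`Φ x i = (if h : i < M then f (x ⟨i, h⟩) else 0) - (if h : 0 < i then g (x ⟨i-1, _⟩) else 0)`.
There are `K^(M+1)` values, so by pigeonhole (`Finset.exists_le_card_fiber_of_nsmul_le_card_of_maps_to`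
with the real/rational number `b = |T|^M / K^(M+1)`) one fibre `D` of `Φ` has `|T|^M ≤ |D| K^(M+1)`.
If `x ≠ y` in `D` and `i` is the least index with `x i ≠ y i`, then `Φ x i.castSucc = Φ y i.castSucc`
gives `f (x i) = f (y i)` (the other term depends on `x (i-1) = y (i-1)` or is `0`). If `i` is the
largest index with `x i ≠ y i`, then `Φ x i.succ = Φ y i.succ` gives `g (x i) = g (y i)`. -/
def S_COMB : Prop :=
  ∀ (T : Type) [Fintype T] [DecidableEq T] (K M : ℕ) [NeZero K] (f g : T → ZMod K),
    ∃ D : Finset (Fin M → T), (Fintype.card T) ^ M ≤ D.card * K ^ (M + 1) ∧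
      ∀ x ∈ D, ∀ y ∈ D, x ≠ y →
        (∃ i, x i ≠ y i ∧ f (x i) = f (y i)) ∧ (∃ i, x i ≠ y i ∧ g (x i) = g (y i))

/-- PIECE COVER. A code `C` of uniform words gives labels: if `|T| (1 - |C|/|T|)^K < 1`, where `T` is
the set of all uniform words, then the uniform words can be labelled by `ZMod K` so that two
different words with the same label are `p`-fold `E`-separated.

PROOF. For a permutation `s` of `Fin (n t)` let `s x = x ∘ s`; it preserves `Unif` and `Sep`.
Transitivity: for uniform `x, y` there is `s` with `x ∘ s = y` (use `Equiv.sigmaFiberEquiv x`,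
`Equiv.sigmaFiberEquiv y` and equivalences of the fibres, which have `t` elements each).
So for `c, r` uniform the number `N` of `s` with `c ∘ s = r` does not depend on `r`
(`s ↦ s * h`), and `N |T| = |Perm|`. Hence for every set `R` of uniform words
`sum over s of |{x ∈ R : x = c ∘ s for some c in C}| = |C| |R| |Perm| / |T|`, and some `s` covers at
least `|C| |R| / |T|` elements of `R`. Induction on `K` over all `R` with `|R| (1 - |C|/|T|)^K < 1`:
`K = 0`: `R` is empty. Step: choose `s`, give the covered elements the label `K`, the others by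
induction labels `< K` (first work with labels in `ℕ`, `< K`, at the end cast to `ZMod K`). -/
def S_COVER : Prop :=
  ∀ (n p t K : ℕ) [NeZero K] (E : Finset (Fin n × Fin n)) (C : Finset (Fin (n * t) → Fin n)),
    (∀ x ∈ C, Unif t x) → (∀ x ∈ C, ∀ y ∈ C, x ≠ y → Sep p E x y) →
    (Nat.card {w : Fin (n * t) → Fin n // Unif t w} : ℝ) *
      (1 - (C.card : ℝ) / Nat.card {w : Fin (n * t) → Fin n // Unif t w}) ^ K < 1 →
    ∃ f : {w : Fin (n * t) → Fin n // Unif t w} → ZMod K,
      ∀ x y, x ≠ y → f x = f y → Sep p E x.1 y.1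

/-- PIECE GREEDY. If `near` is reflexive on `X` and every element of `X` is near to at most `B`
elements of `X`, then `X` has a subset `Y` with `|X| ≤ B |Y|` without two different near elements.
(Strong induction on `|X|`: take `x`, remove all elements near to `x`.) -/
def S_GREEDY : Prop :=
  ∀ (α : Type) [DecidableEq α] (near : α → α → Prop) [DecidableRel near] (B : ℕ) (X : Finset α),
    (∀ x ∈ X, near x x) → (∀ x ∈ X, ∀ y ∈ X, near x y → near y x) →
    (∀ x ∈ X, (X.filter fun y => near x y).card ≤ B) →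
    ∃ Y ⊆ X, X.card ≤ B * Y.card ∧ ∀ x ∈ Y, ∀ y ∈ Y, x ≠ y → ¬ near x y

/-- PIECE BASE (uses MOVE and GREEDY as hypotheses). For one pair of letters there is a code with at
least `C(2t,t) / B` words, `B = 2 p (2 t + 1) ^ (2 p)`.

PROOF. Index type `ι = Fin n × Fin t`, `P = {i | i.1 = a ∨ i.1 = b}` (`2 t` elements). For
`s ∈ P.powersetCard t` let `w s i = if i ∈ s then a else if i ∈ P then b else i.1`; it is uniform.
For `s ≠ s'` the places with `(a, b)` are `s \ s'` and the places with `(b, a)` are `s' \ s`, both of the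
same size, because `|s| = |s'| = t`. Apply GREEDY to `X = P.powersetCard t` with
`near s s' = ((s \ s').card < p ∨ s = s')` (`p ≥ 1`: then `(s \ s).card = 0 < p` anyway). The elements
near to `s` inject by `s' ↦ symmDiff s s'` into the subsets of `P` with fewer than `2 p` elements;
their number is `sum_{j < 2p} C(2t, j) ≤ 2 p (2 t + 1) ^ (2 p)` (`Nat.choose_le_pow`). Number of words:
`(P.powersetCard t).card = C(2t, t) = Nat.centralBinom t`. -/
def S_BASE : Prop :=
  ∀ (n p t : ℕ) (a b : Fin n), a ≠ b → 1 ≤ p →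
    ∃ S : ℕ, Code n p {(a, b), (b, a)} t S ∧
      Nat.centralBinom t ≤ (2 * p * (2 * t + 1) ^ (2 * p)) * S

/-- PIECE JOIN (uses MOVE, COMB, COVER as hypotheses). Two codes of the same length are combined: if
`|T| (1 - S/|T|)^K < 1` for the number `|T|` of uniform words, then for every `M` there is a code of
length `n (M t)` for `E₁ ∪ E₂` with at least `|T|^M / K^(M+1)` words.

PROOF. Labels `f, g` from COVER (the given codes have at least `S` words; `S ≤ |C|` gives
`(1 - |C|/|T|)^K ≤ (1 - S/|T|)^K`, note `|C| ≤ |T|`), the set `D` from COMB for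
`T = {w // Unif t w}`; words on `Fin M × Fin (n t)`: `(i, j) ↦ (x i).1 j`. Uniform: `M t` times each
letter. For `(a, b) ∈ E₁` take the index `i` with `x i ≠ y i` and `f (x i) = f (y i)`; the block `i`
alone has `p` places with `(a, b)`. Then MOVE. -/
def S_JOIN : Prop :=
  ∀ (n p t K S : ℕ) [NeZero K] (E₁ E₂ : Finset (Fin n × Fin n)),
    Code n p E₁ t S → Code n p E₂ t S →
    (Nat.card {w : Fin (n * t) → Fin n // Unif t w} : ℝ) *
      (1 - (S : ℝ) / Nat.card {w : Fin (n * t) → Fin n // Unif t w}) ^ K < 1 →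
    ∀ M : ℕ, ∃ S' : ℕ, Code n p (E₁ ∪ E₂) (M * t) S' ∧
      (Nat.card {w : Fin (n * t) → Fin n // Unif t w}) ^ M ≤ S' * K ^ (M + 1)

/-- PIECE PAD (uses MOVE as hypothesis). Append a fixed uniform word of length `n r`
(index type `Fin (n t) ⊕ (Fin n × Fin r)`, word `Sum.elim x Prod.fst`). -/
def S_PAD : Prop :=
  ∀ (n p t r S : ℕ) (E : Finset (Fin n × Fin n)), Code n p E t S → Code n p E (t + r) S

/-- the optimal rate is reached for the family `E` -/
def Rate (n p : ℕ) (E : Finset (Fin n × Fin n)) : Prop :=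
  ∀ ε : ℝ, 0 < ε → ∃ t0 : ℕ, ∀ t : ℕ, t0 ≤ t → ∃ S : ℕ, 1 ≤ S ∧ Code n p E t S ∧
    (2 * Real.log 2 - ε) * t ≤ Real.log S

/-- PIECE RBASE (uses BASE): the rate for one pair (`Nat.four_pow_le_two_mul_self_mul_centralBinom`,
`log (polynomial in t) ≤ ε t` for large `t`). -/
def S_RBASE : Prop :=
  ∀ (n p : ℕ) (a b : Fin n), a ≠ b → 1 ≤ p → Rate n p {(a, b), (b, a)}

/-- PIECE RJOIN (uses JOIN, PAD): the rate for the union. -/
def S_RJOIN : Prop :=
  ∀ (n p : ℕ) (E₁ E₂ : Finset (Fin n × Fin n)), 2 ≤ n → Rate n p E₁ → Rate n p E₂ →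
    Rate n p (E₁ ∪ E₂)

end Pool.Agent.Run7.h198.CA
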