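import Pool.Agent.Run7.h198.CA.Defs
import Pool.Agent.R104.PInter

set_option autoImplicit false

/-!
# p-intersection number of the complete k-partite graph: statements of the remaining pieces
-/

namespace Pool.Agent.Run7.h198.CA

open Finset Pool.Agent.R104.PInter

/-- The complete `k`-partite graph with `k` parts of size `n`: the vertex `(α, l)` is the vertex
number `α` of the part number `l`; two vertices are adjacent iff they are in different parts. -/
def KP (n k : ℕ) : SimpleGraph (Fin n × Fin k) where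
  Adj u v := u.2 ≠ v.2
  symm := ⟨fun _ _ h => h.symm⟩
  loopless := ⟨fun _ h => h rfl⟩

/-- all ordered pairs of different letters -/
def allPairs (n : ℕ) : Finset (Fin n × Fin n) := univ.filter fun e => e.1 ≠ e.2

/-- PIECE REP. A code of `k` words gives a representation on `n t + n p` points: points
`Fin (n t) ⊕ Fin n × Fin p`, the vertex `(α, l)` gets the places where the word number `l` has the
letter `α` and the points `(α, j)`, `j < p`. Two vertices `(α, l)`, `(β, l)` with `α ≠ β` have
disjoint sets. -/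
def S_REP : Prop :=
  ∀ n p t k : ℕ, 1 ≤ p → Code n p (allPairs n) t k → Rep (KP n k) p (n * t + n * p)

/-- PIECE LOW (lower bound).

PROOF. Let `S` be the representation. For a part `l` put
`S' α = S (α, l) \ ⋃_{β ≠ α} S (β, l)`; these sets are disjoint, so `∑ α, |S' α| ≤ t`, and
`|S (α, l)| ≤ |S' α| + n p`. Averaging over the ordered pairs `a ≠ b` there is one with
`n (|S' a| + |S' b|) ≤ 2 t`. So `|S (a, l)| + |S (b, l)| ≤ 2 t / n + 2 n p`. Give the part `l` the label
`(a, b, I)`, `I = S (a, l) ∩ S (b, l)`, `|I| < p`. There are at most `n² (t+1)^p` labels (a set with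
at most `p` elements is `{x | ∃ i, φ i = some x}` for some `φ : Fin p → Option (Fin t)`). For parts
`l ≠ m` with the same label the families
`F l = {X ⊆ Fin t | S (a, l) \ I ⊆ X, X ∩ (S (b, l) \ I) = ∅}` and `F m` are disjoint: otherwise
`S (a, l) ∩ S (b, m) ⊆ I`, but it has at least `p > |I|` elements. And
`|F l| = 2 ^ (t - |S (a, l) \ I| - |S (b, l) \ I|) ≥ 2 ^ (t - (2 t / n + 2 n p))`. So the number of
parts with one label is at most `2 ^ (2 t / n + 2 n p)`. -/
def S_LOW : Prop :=
  ∀ n p t k : ℕ, 2 ≤ n → 1 ≤ p → Rep (KP n k) p t →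
    (k : ℝ) ≤ (n : ℝ) ^ 2 * ((t : ℝ) + 1) ^ p * (2 : ℝ) ^ ((2 * (t : ℝ)) / n + 2 * n * p)

/-- PIECE ALL (from RBASE, RJOIN) -/
def S_ALL : Prop := ∀ n p : ℕ, 2 ≤ n → 1 ≤ p → Rate n p (allPairs n)

end Pool.Agent.Run7.h198.CA
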